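import Pool.Agent.Helper93.PL.St

/-!
Project PL, module Fac: the factorial beats `(c √k)^k`.
-/

namespace Pool.Agent.Helper42.PL

theorem hFac : Pool.Agent.Helper93.PL.StFac := by
  intro j x ε hx hε
  obtain ⟨n0, hn0⟩ := exists_pow_lt_of_lt_one (show (0 : ℝ) < ε / 2 by positivity)
    (show (1 / 2 : ℝ) < 1 by norm_num)
  set C : ℝ := 8 * x * Real.exp 5 with hC
  have hCpos : 0 < C := by positivity
  obtain ⟨n1, hn1⟩ := exists_nat_ge (3 * C ^ 2)
  refine ⟨n0 + n1, ?_⟩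
  set k : ℕ := j + (n0 + n1) + 1 with hk
  have hk1 : 1 ≤ k := by omega
  have hkn0 : n0 ≤ k := by omega
  have hkn1 : n1 ≤ k := by omega
  have hkR : (1 : ℝ) ≤ (k : ℝ) := by exact_mod_cast hk1
  have hk0 : (0 : ℝ) < (k : ℝ) := by linarith
  have hkC : 3 * C ^ 2 ≤ (k : ℝ) := le_trans hn1 (by exact_mod_cast hkn1)
  have hch : ((k.choose j : ℕ) : ℝ) ≤ 2 ^ k := by
    have : k.choose j ≤ 2 ^ k := Nat.choose_le_two_pow k j
    exact_mod_cast this
  have hfac : (k : ℝ) ^ k / (k.factorial : ℝ) ≤ Real.exp k :=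
    Real.pow_div_factorial_le_exp (k : ℝ) hk0.le k
  have hfpos : (0 : ℝ) < (k.factorial : ℝ) := by exact_mod_cast Nat.factorial_pos k
  have hkk : (0 : ℝ) < (k : ℝ) ^ k := by positivity
  have hfac2 : 1 / (k.factorial : ℝ) ≤ (Real.exp 1 / k) ^ k := by
    rw [div_pow, ← Real.exp_nat_mul, mul_one, le_div_iff₀ hkk]
    calc 1 / (k.factorial : ℝ) * (k : ℝ) ^ k = (k : ℝ) ^ k / (k.factorial : ℝ) := by ring
      _ ≤ _ := hfac
  set s : ℝ := Real.sqrt ((k : ℝ) + 2) with hs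
  have hs0 : 0 ≤ s := Real.sqrt_nonneg _
  -- the base is at most one half
  have hbase : 2 * x * (2 * s * Real.exp 4) * (Real.exp 1 / k) ≤ 1 / 2 := by
    have h1 : s ^ 2 = (k : ℝ) + 2 := Real.sq_sqrt (by linarith)
    have h2 : (C * s) ^ 2 ≤ (k : ℝ) ^ 2 := by
      rw [mul_pow, h1]
      nlinarith [sq_nonneg C]
    have h3 : C * s ≤ k := by
      have := abs_le_of_sq_le_sq h2 hk0.le
      exact le_trans (le_abs_self _) this
    have he : Real.exp 5 = Real.exp 4 * Real.exp 1 := by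
      rw [← Real.exp_add]; norm_num
    have h4 : 2 * x * (2 * s * Real.exp 4) * (Real.exp 1 / k) = C * s / (2 * k) := by
      rw [hC, he]; field_simp; ring
    rw [h4, div_le_div_iff₀ (by positivity) (by norm_num)]
    linarith
  have hbase0 : 0 ≤ 2 * x * (2 * s * Real.exp 4) * (Real.exp 1 / k) := by positivity
  have hX : 0 ≤ x ^ k * (2 * s * Real.exp 4) ^ k := by positivity
  calc 2 * ((k.choose j : ℕ) : ℝ) * (x ^ k * (2 * Real.sqrt (((k : ℕ) : ℝ) + 2) * Real.exp 4) ^ k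
        / (k.factorial : ℝ))
      = 2 * (((k.choose j : ℕ) : ℝ) * ((x ^ k * (2 * s * Real.exp 4) ^ k)
        * (1 / (k.factorial : ℝ)))) := by rw [hs]; ring
    _ ≤ 2 * (2 ^ k * ((x ^ k * (2 * s * Real.exp 4) ^ k) * (Real.exp 1 / k) ^ k)) := by
        gcongr
    _ = 2 * (2 * x * (2 * s * Real.exp 4) * (Real.exp 1 / k)) ^ k := by
        have e : ∀ B D : ℝ, (2 * x * B * D) ^ k = 2 ^ k * x ^ k * B ^ k * D ^ k := fun B D => by
          rw [mul_pow, mul_pow, mul_pow]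
        rw [e]; ring
    _ ≤ 2 * (1 / 2) ^ k := by gcongr
    _ ≤ 2 * (1 / 2) ^ n0 := by
        have := pow_le_pow_of_le_one (show (0 : ℝ) ≤ 1 / 2 by norm_num) (by norm_num) hkn0
        linarith
    _ ≤ ε := by linarith

end Pool.Agent.Helper42.PL
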